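import Pool.Agent.helper14.Fort.Defs

namespace Pool.Agent.helper14.Fort

open Matrix

variable {V : Type*} [Fintype V]

lemma maxNullity_le (G : SimpleGraph V) (b : ℕ) (h : ∀ A ∈ symMats G, nullity A ≤ b) :
    maxNullity G ≤ b := by
  unfold maxNullity
  rcases Set.eq_empty_or_nonempty {k | ∃ A ∈ symMats G, nullity A = k} with he | hne
  · rw [he]; simp
  · apply csSup_le hne
    rintro k ⟨A, hA, rfl⟩
    exact h A hA

lemma le_fortNumber (G : SimpleGraph V) (P : Finset (Finset V)) (h1 : ∀ F ∈ P, IsFort G F)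
    (h2 : ∀ F ∈ P, ∀ F' ∈ P, F ≠ F' → Disjoint F F') : P.card ≤ fortNumber G := by
  unfold fortNumber
  apply le_csSup
  · refine ⟨Fintype.card (Finset V), ?_⟩
    rintro k ⟨Q, -, -, rfl⟩
    exact Finset.card_le_univ Q
  · exact ⟨P, h1, h2, rfl⟩

omit [Fintype V] in
/-- every fort contains a minimal fort -/
lemma exists_minimalFort (G : SimpleGraph V) (F : Finset V) (hF : IsFort G F) :
    ∃ F', F' ⊆ F ∧ IsMinimalFort G F' := by
  induction F using Finset.strongInduction with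
  | H F ih =>
    by_cases hm : IsMinimalFort G F
    · exact ⟨F, Finset.Subset.refl _, hm⟩
    · have : ∃ F', IsFort G F' ∧ F' ⊆ F ∧ F' ≠ F := by
        by_contra hcon
        push Not at hcon
        exact hm ⟨hF, hcon⟩
      obtain ⟨F', hF', hsub, hne⟩ := this
      obtain ⟨F'', h1, h2⟩ := ih F' (Finset.ssubset_iff_subset_ne.2 ⟨hsub, hne⟩) hF'
      exact ⟨F'', h1.trans hsub, h2⟩

lemma le_fracZeroForcing [DecidableEq V] (G : SimpleGraph V) (P : Finset (Finset V)) (h1 : ∀ F ∈ P, IsFort G F)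
    (h2 : ∀ F ∈ P, ∀ F' ∈ P, F ≠ F' → Disjoint F F') : (P.card : ℝ) ≤ fracZeroForcing G := by
  unfold fracZeroForcing
  apply le_csInf
  · refine ⟨∑ _v : V, (1 : ℝ), fun _ => 1, fun _ => zero_le_one, ?_, rfl⟩
    intro F hF
    have : 0 < F.card := hF.1.1.card_pos
    simp only [Finset.sum_const, nsmul_eq_mul, mul_one]
    exact_mod_cast this
  · rintro s ⟨x, hx0, hx1, rfl⟩
    have key : ∀ F ∈ P, 1 ≤ ∑ v ∈ F, x v := by
      intro F hF
      obtain ⟨F', hsub, hmin⟩ := exists_minimalFort G F (h1 F hF)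
      exact (hx1 F' hmin).trans (Finset.sum_le_sum_of_subset_of_nonneg hsub
        (fun v _ _ => hx0 v))
    calc (P.card : ℝ) = ∑ _F ∈ P, (1 : ℝ) := by simp
      _ ≤ ∑ F ∈ P, ∑ v ∈ F, x v := Finset.sum_le_sum key
      _ = ∑ v ∈ P.biUnion id, x v := by
        rw [Finset.sum_biUnion]
        · rfl
        · intro F hF F' hF' hne
          exact h2 F hF F' hF' hne
      _ ≤ ∑ v, x v := Finset.sum_le_sum_of_subset_of_nonneg (Finset.subset_univ _)
        (fun v _ _ => hx0 v)

end Pool.Agent.helper14.Fort
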