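import Mathlib

/-!
Definitions: the matrices described by a graph, maximum nullity, forts, the fort number and
the fractional zero forcing number.
-/

namespace Pool.Agent.helper14.Fort

open Matrix

variable {V : Type*} [Fintype V]

/-- `S(G)`: the real symmetric matrices whose off-diagonal nonzero pattern is the edge set of
`G`; diagonal entries are unrestricted. -/
def symMats (G : SimpleGraph V) : Set (Matrix V V ℝ) :=
  {A | A.IsSymm ∧ ∀ i j, i ≠ j → (A i j ≠ 0 ↔ G.Adj i j)}

/-- The nullity of a real square matrix. -/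
noncomputable def nullity (A : Matrix V V ℝ) : ℕ :=
  Module.finrank ℝ (LinearMap.ker A.mulVecLin)

/-- The maximum nullity `M(G)`. -/
noncomputable def maxNullity (G : SimpleGraph V) : ℕ :=
  sSup {k | ∃ A ∈ symMats G, nullity A = k}

/-- Forts: nonempty vertex sets `F` such that no vertex outside `F` has exactly one neighbour
in `F`. -/
def IsFort (G : SimpleGraph V) (F : Finset V) : Prop :=
  F.Nonempty ∧ ∀ v, v ∉ F → ¬ ∃! u, u ∈ F ∧ G.Adj v u

/-- The fort number `ft(G)`: the maximum number of pairwise disjoint forts. -/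
noncomputable def fortNumber (G : SimpleGraph V) : ℕ :=
  sSup {k | ∃ P : Finset (Finset V), (∀ F ∈ P, IsFort G F) ∧
    (∀ F ∈ P, ∀ F' ∈ P, F ≠ F' → Disjoint F F') ∧ P.card = k}

/-- Inclusion-minimal forts. -/
def IsMinimalFort (G : SimpleGraph V) (F : Finset V) : Prop :=
  IsFort G F ∧ ∀ F', IsFort G F' → F' ⊆ F → F' = F

/-- The fractional zero forcing number `Z*(G)`, as the value of the linear program. -/
noncomputable def fracZeroForcing (G : SimpleGraph V) : ℝ :=
  sInf {s | ∃ x : V → ℝ, (∀ v, 0 ≤ x v) ∧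
    (∀ F, IsMinimalFort G F → 1 ≤ ∑ v ∈ F, x v) ∧ ∑ v, x v = s}

end Pool.Agent.helper14.Fort
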