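import Pool.Agent.helper14.Fort.Global

namespace Pool.Agent.helper14.Fort

open Matrix

/-! ### The nullity bound -/

lemma nullity_bound {h c : ℕ} (A : Matrix (BV h c) (BV h c) ℝ)
    (hA : A ∈ symMats (bigGraph h c)) (N : ℕ) (hh : h = N + 7) (hc : c = h + N + 1) :
    nullity A + N + 1 ≤ 2 * Fintype.card (GI h c) := by
  have h1 : nullity A + 2 * Module.finrank ℝ (imU A)
      ≤ Module.finrank ℝ (kerN A) + Fintype.card (Fin h) := nullity_le A hA.1
  have h2 := finrank_kerN_le hA
  have h3 : ∀ i, Module.finrank ℝ (LinearMap.ker (blk A i).mulVecLin) ≤ 2 := fun i =>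
    finrank_ker_le_two (blk_pat hA i)
  rw [Fintype.card_fin] at h1
  have h4 : ∑ i : GI h c, Module.finrank ℝ (LinearMap.ker (blk A i).mulVecLin)
      ≤ 2 * Fintype.card (GI h c) := by
    calc ∑ i : GI h c, Module.finrank ℝ (LinearMap.ker (blk A i).mulVecLin)
        ≤ ∑ _i : GI h c, 2 := Finset.sum_le_sum (fun i _ => h3 i)
      _ = 2 * Fintype.card (GI h c) := by simp [mul_comm]
  by_cases hr : Module.finrank ℝ (imU A) + 4 ≤ h
  · obtain ⟨s, hs⟩ := exists_embedding 4 (imU A) hr
    have h5 : ∑ i : GI h c, (Module.finrank ℝ (LinearMap.ker (blk A i).mulVecLin)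
        + if i.1 = s then 1 else 0) ≤ 2 * Fintype.card (GI h c) := by
      calc ∑ i : GI h c, (Module.finrank ℝ (LinearMap.ker (blk A i).mulVecLin)
            + if i.1 = s then 1 else 0)
          ≤ ∑ _i : GI h c, 2 := by
            apply Finset.sum_le_sum
            intro i _
            split_ifs with hi
            · have := finrank_blk_le_one hA i (by rw [hi]; exact hs)
              omega
            · have := h3 i
              omega
        _ = 2 * Fintype.card (GI h c) := by simp [mul_comm]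
    have h6 : ∑ i : GI h c, (if i.1 = s then 1 else 0) = c := by
      rw [Fintype.sum_prod_type, Finset.sum_eq_single s]
      · simp
      · intro b _ hb
        simp [hb]
      · intro hb
        exact absurd (Finset.mem_univ s) hb
    rw [Finset.sum_add_distrib, h6] at h5
    omega
  · omega

/-! ### The forts -/

/-- even / odd vertices of the gadget -/
def par : Bool → Finset (Fin 8)
  | false => {0, 2, 4, 6}
  | true => {1, 3, 5, 7}

/-- the two forts of the gadget `i` -/
def frt {h c : ℕ} (p : GI h c × Bool) : Finset (BV h c) :=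
  (par p.2).image (fun x => Sum.inr (p.1, x))

lemma mem_frt {h c : ℕ} {p : GI h c × Bool} {v : BV h c} :
    v ∈ frt p ↔ ∃ x ∈ par p.2, (Sum.inr (p.1, x) : BV h c) = v := by
  simp [frt]

lemma inr_mem_frt {h c : ℕ} {p : GI h c × Bool} {q : GI h c × Fin 8} :
    (Sum.inr q : BV h c) ∈ frt p ↔ q.1 = p.1 ∧ q.2 ∈ par p.2 := by
  rw [mem_frt]
  constructor
  · rintro ⟨x, hx, he⟩
    have := Sum.inr_injective he
    subst this
    exact ⟨rfl, hx⟩
  · rintro ⟨h1, h2⟩
    refine ⟨q.2, h2, ?_⟩
    rw [← h1]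

lemma par_ports (b : Bool) (r : Fin 4) : lo r ∈ par b ↔ hi r ∈ par b := by
  revert b r; decide

lemma par_gadget (b : Bool) (y : Fin 8) (hy : y ∉ par b) :
    ¬ ∃ x, (x ∈ par b ∧ gadj y x) ∧ ∀ z, z ∈ par b ∧ gadj y z → z = x := by
  revert b y; decide

lemma frt_isFort {h c : ℕ} (p : GI h c × Bool) : IsFort (bigGraph h c) (frt p) := by
  constructor
  · unfold frt
    apply Finset.Nonempty.image
    generalize p.2 = b
    revert b; decide
  · rintro (a | q) hv ⟨u, ⟨hu, hadj⟩, huniq⟩
    · obtain ⟨x, hx, rfl⟩ := mem_frt.1 hu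
      obtain ⟨r, hr, hx'⟩ := hadj
      have hlo : lo r ∈ par p.2 := by
        rcases hx' with hx' | hx'
        · change x = lo r at hx'; rw [← hx']; exact hx
        · change x = hi r at hx'; rw [par_ports, ← hx']; exact hx
      have hhi : hi r ∈ par p.2 := (par_ports _ _).1 hlo
      have e1 := huniq (Sum.inr (p.1, lo r)) ⟨inr_mem_frt.2 ⟨rfl, hlo⟩, r, hr, Or.inl rfl⟩
      have e2 := huniq (Sum.inr (p.1, hi r)) ⟨inr_mem_frt.2 ⟨rfl, hhi⟩, r, hr, Or.inr rfl⟩
      have e3 := Sum.inr_injective (e1.trans e2.symm)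
      exact lo_ne_hi r (Prod.ext_iff.1 e3).2
    · obtain ⟨x, hx, rfl⟩ := mem_frt.1 hu
      obtain ⟨hq1, hq2⟩ := hadj
      change q.1 = p.1 at hq1
      have hy : q.2 ∉ par p.2 := fun hq => hv (inr_mem_frt.2 ⟨hq1, hq⟩)
      apply par_gadget p.2 q.2 hy
      refine ⟨x, ⟨hx, hq2⟩, ?_⟩
      rintro z ⟨hz1, hz2⟩
      have e := huniq (Sum.inr (p.1, z)) ⟨inr_mem_frt.2 ⟨rfl, hz1⟩, hq1, hz2⟩
      exact (Prod.ext_iff.1 (Sum.inr_injective e)).2

lemma par_disjoint {b b' : Bool} {x : Fin 8} (h : x ∈ par b) (h' : x ∈ par b') : b = b' := by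
  revert b b' x; decide

lemma frt_disjoint {h c : ℕ} {p q : GI h c × Bool} (hpq : p ≠ q) :
    Disjoint (frt p) (frt q) := by
  rw [Finset.disjoint_left]
  intro v hv hv'
  obtain ⟨x, hx, rfl⟩ := mem_frt.1 hv
  obtain ⟨h1, h2⟩ := inr_mem_frt.1 hv'
  exact hpq (Prod.ext h1 (par_disjoint hx h2))

lemma frt_injective {h c : ℕ} : Function.Injective (frt (h := h) (c := c)) := by
  intro p q hpq
  by_contra hne
  have hd := frt_disjoint hne
  rw [hpq] at hd
  have := (frt_isFort q).1
  rw [disjoint_self] at hd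
  rw [Finset.bot_eq_empty] at hd
  rw [hd] at this
  exact Finset.not_nonempty_empty this

/-- the family of all these forts -/
noncomputable def forts (h c : ℕ) : Finset (Finset (BV h c)) :=
  Finset.univ.map ⟨frt, frt_injective⟩

lemma card_forts (h c : ℕ) : (forts h c).card = 2 * Fintype.card (GI h c) := by
  unfold forts
  rw [Finset.card_map, Finset.card_univ, Fintype.card_prod, Fintype.card_bool, mul_comm]

lemma forts_isFort {h c : ℕ} : ∀ F ∈ forts h c, IsFort (bigGraph h c) F := by
  intro F hF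
  simp only [forts, Finset.mem_map, Finset.mem_univ, Function.Embedding.coeFn_mk, true_and] at hF
  obtain ⟨p, rfl⟩ := hF
  exact frt_isFort p

lemma forts_disjoint {h c : ℕ} : ∀ F ∈ forts h c, ∀ F' ∈ forts h c, F ≠ F' → Disjoint F F' := by
  intro F hF F' hF' hne
  simp only [forts, Finset.mem_map, Finset.mem_univ, Function.Embedding.coeFn_mk, true_and]
    at hF hF'
  obtain ⟨p, rfl⟩ := hF
  obtain ⟨q, rfl⟩ := hF'
  exact frt_disjoint (fun he => hne (by rw [he]))

/-- The main estimate. -/
theorem main (N : ℕ) :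
    maxNullity (bigGraph (N + 7) (N + 7 + N + 1)) + N
        < fortNumber (bigGraph (N + 7) (N + 7 + N + 1)) ∧
      (maxNullity (bigGraph (N + 7) (N + 7 + N + 1)) : ℝ) + N
        < fracZeroForcing (bigGraph (N + 7) (N + 7 + N + 1)) := by
  set h := N + 7 with hh
  set c := N + 7 + N + 1 with hc
  have h1 : maxNullity (bigGraph h c) ≤ 2 * Fintype.card (GI h c) - (N + 1) := by
    apply maxNullity_le
    intro A hA
    have := nullity_bound A hA N hh (by omega)
    omega
  have hcard : N + 1 ≤ 2 * Fintype.card (GI h c) := by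
    have hc' : c ≤ Fintype.card (GI h c) := by
      rw [Fintype.card_prod, Fintype.card_fin]
      have : 0 < Fintype.card (Fin 4 ↪ Fin h) := by
        rw [Fintype.card_pos_iff]
        exact Function.Embedding.nonempty_of_card_le (by simp [hh])
      exact Nat.le_mul_of_pos_left c this
    omega
  have h2 := le_fortNumber (bigGraph h c) (forts h c) forts_isFort forts_disjoint
  have h3 := le_fracZeroForcing (bigGraph h c) (forts h c) forts_isFort forts_disjoint
  rw [card_forts] at h2 h3
  constructor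
  · omega
  · have h4 : maxNullity (bigGraph h c) + N < 2 * Fintype.card (GI h c) := by omega
    calc (maxNullity (bigGraph h c) : ℝ) + N
        = ((maxNullity (bigGraph h c) + N : ℕ) : ℝ) := by push_cast; ring
      _ < ((2 * Fintype.card (GI h c) : ℕ) : ℝ) := by exact_mod_cast h4
      _ ≤ _ := h3

end Pool.Agent.helper14.Fort
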