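import Mathlib

/-!
The gadget: the `2 x 4` ladder with one diagonal, on the vertex set `Fin 8`.
-/

namespace Pool.Agent.helper14.Fort

open Matrix

/-- The edges of the gadget (one orientation of each). -/
def gadgetEdges : Finset (Fin 8 × Fin 8) :=
  {(0, 1), (1, 2), (2, 3), (0, 3), (4, 5), (5, 6), (6, 7), (4, 7), (2, 5), (1, 5), (2, 4)}

/-- Adjacency in the gadget. -/
def gadj (x y : Fin 8) : Prop := (x, y) ∈ gadgetEdges ∨ (y, x) ∈ gadgetEdges

instance : DecidableRel gadj := fun x y => by unfold gadj; infer_instance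

lemma gadj_symm {x y : Fin 8} (h : gadj x y) : gadj y x := h.symm

lemma gadj_irrefl (x : Fin 8) : ¬ gadj x x := by revert x; decide

/-- the two endpoints of the port number `r` of the gadget -/
def lo : Fin 4 → Fin 8 := ![0, 1, 2, 3]
def hi : Fin 4 → Fin 8 := ![2, 3, 4, 5]

/-- A matrix with the pattern of the gadget. -/
structure GPat (B : Matrix (Fin 8) (Fin 8) ℝ) : Prop where
  symm : ∀ i j, B i j = B j i
  pat : ∀ i j, i ≠ j → (B i j ≠ 0 ↔ gadj i j)

variable {B : Matrix (Fin 8) (Fin 8) ℝ}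

lemma GPat.zero (h : GPat B) {i j : Fin 8} (hij : i ≠ j) (hn : ¬ gadj i j) : B i j = 0 := by
  by_contra hb
  exact hn ((h.pat i j hij).1 hb)

lemma GPat.ne (h : GPat B) {i j : Fin 8} (hij : i ≠ j) (hn : gadj i j) : B i j ≠ 0 :=
  (h.pat i j hij).2 hn

lemma row_eq (B : Matrix (Fin 8) (Fin 8) ℝ) (y : Fin 8 → ℝ) (i : Fin 8) :
    (B *ᵥ y) i = B i 0 * y 0 + B i 1 * y 1 + B i 2 * y 2 + B i 3 * y 3 + B i 4 * y 4
      + B i 5 * y 5 + B i 6 * y 6 + B i 7 * y 7 := by
  simp [Matrix.mulVec, dotProduct, Fin.sum_univ_eight]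

lemma row0 (h : GPat B) {y : Fin 8 → ℝ} (hy : B *ᵥ y = 0) :
    B 0 0 * y 0 + B 0 1 * y 1 + B 0 3 * y 3 = 0 := by
  have e := congrFun hy 0
  rw [row_eq, h.zero (i := 0) (j := 2) (by decide) (by decide),
    h.zero (i := 0) (j := 4) (by decide) (by decide),
    h.zero (i := 0) (j := 5) (by decide) (by decide),
    h.zero (i := 0) (j := 6) (by decide) (by decide),
    h.zero (i := 0) (j := 7) (by decide) (by decide)] at e
  simp only [Pi.zero_apply] at e
  linarith

lemma row1 (h : GPat B) {y : Fin 8 → ℝ} (hy : B *ᵥ y = 0) :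
    B 1 0 * y 0 + B 1 1 * y 1 + B 1 2 * y 2 + B 1 5 * y 5 = 0 := by
  have e := congrFun hy 1
  rw [row_eq, h.zero (i := 1) (j := 3) (by decide) (by decide),
    h.zero (i := 1) (j := 4) (by decide) (by decide),
    h.zero (i := 1) (j := 6) (by decide) (by decide),
    h.zero (i := 1) (j := 7) (by decide) (by decide)] at e
  simp only [Pi.zero_apply] at e
  linarith

lemma row2 (h : GPat B) {y : Fin 8 → ℝ} (hy : B *ᵥ y = 0) :
    B 2 1 * y 1 + B 2 2 * y 2 + B 2 3 * y 3 + B 2 4 * y 4 + B 2 5 * y 5 = 0 := by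
  have e := congrFun hy 2
  rw [row_eq, h.zero (i := 2) (j := 0) (by decide) (by decide),
    h.zero (i := 2) (j := 6) (by decide) (by decide),
    h.zero (i := 2) (j := 7) (by decide) (by decide)] at e
  simp only [Pi.zero_apply] at e
  linarith

lemma row3 (h : GPat B) {y : Fin 8 → ℝ} (hy : B *ᵥ y = 0) :
    B 3 0 * y 0 + B 3 2 * y 2 + B 3 3 * y 3 = 0 := by
  have e := congrFun hy 3
  rw [row_eq, h.zero (i := 3) (j := 1) (by decide) (by decide),
    h.zero (i := 3) (j := 4) (by decide) (by decide),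
    h.zero (i := 3) (j := 5) (by decide) (by decide),
    h.zero (i := 3) (j := 6) (by decide) (by decide),
    h.zero (i := 3) (j := 7) (by decide) (by decide)] at e
  simp only [Pi.zero_apply] at e
  linarith

lemma row4 (h : GPat B) {y : Fin 8 → ℝ} (hy : B *ᵥ y = 0) :
    B 4 2 * y 2 + B 4 4 * y 4 + B 4 5 * y 5 + B 4 7 * y 7 = 0 := by
  have e := congrFun hy 4
  rw [row_eq, h.zero (i := 4) (j := 0) (by decide) (by decide),
    h.zero (i := 4) (j := 1) (by decide) (by decide),
    h.zero (i := 4) (j := 3) (by decide) (by decide),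
    h.zero (i := 4) (j := 6) (by decide) (by decide)] at e
  simp only [Pi.zero_apply] at e
  linarith

lemma row5 (h : GPat B) {y : Fin 8 → ℝ} (hy : B *ᵥ y = 0) :
    B 5 1 * y 1 + B 5 2 * y 2 + B 5 4 * y 4 + B 5 5 * y 5 + B 5 6 * y 6 = 0 := by
  have e := congrFun hy 5
  rw [row_eq, h.zero (i := 5) (j := 0) (by decide) (by decide),
    h.zero (i := 5) (j := 3) (by decide) (by decide),
    h.zero (i := 5) (j := 7) (by decide) (by decide)] at e
  simp only [Pi.zero_apply] at e
  linarith

/-- `{0, 3}` is a zero forcing set of the gadget. -/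
lemma forcing (h : GPat B) {y : Fin 8 → ℝ} (hy : B *ᵥ y = 0) (y0 : y 0 = 0) (y3 : y 3 = 0) :
    y = 0 := by
  have y1 : y 1 = 0 := by
    have e := row0 h hy
    rw [y0, y3] at e
    have hn := h.ne (i := 0) (j := 1) (by decide) (by decide)
    have : B 0 1 * y 1 = 0 := by linarith
    exact (mul_eq_zero.1 this).resolve_left hn
  have y2 : y 2 = 0 := by
    have e := row3 h hy
    rw [y0, y3] at e
    have hn := h.ne (i := 3) (j := 2) (by decide) (by decide)
    have : B 3 2 * y 2 = 0 := by linarith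
    exact (mul_eq_zero.1 this).resolve_left hn
  have y5 : y 5 = 0 := by
    have e := row1 h hy
    rw [y0, y1, y2] at e
    have hn := h.ne (i := 1) (j := 5) (by decide) (by decide)
    have : B 1 5 * y 5 = 0 := by linarith
    exact (mul_eq_zero.1 this).resolve_left hn
  have y4 : y 4 = 0 := by
    have e := row2 h hy
    rw [y1, y2, y3, y5] at e
    have hn := h.ne (i := 2) (j := 4) (by decide) (by decide)
    have : B 2 4 * y 4 = 0 := by linarith
    exact (mul_eq_zero.1 this).resolve_left hn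
  have y6 : y 6 = 0 := by
    have e := row5 h hy
    rw [y1, y2, y4, y5] at e
    have hn := h.ne (i := 5) (j := 6) (by decide) (by decide)
    have : B 5 6 * y 6 = 0 := by linarith
    exact (mul_eq_zero.1 this).resolve_left hn
  have y7 : y 7 = 0 := by
    have e := row4 h hy
    rw [y2, y4, y5] at e
    have hn := h.ne (i := 4) (j := 7) (by decide) (by decide)
    have : B 4 7 * y 7 = 0 := by linarith
    exact (mul_eq_zero.1 this).resolve_left hn
  funext x
  fin_cases x <;> simp [y0, y1, y2, y3, y4, y5, y6, y7]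

/-- The nullity of a matrix with the pattern of the gadget is at most two. -/
lemma finrank_ker_le_two (h : GPat B) :
    Module.finrank ℝ (LinearMap.ker B.mulVecLin) ≤ 2 := by
  let f : LinearMap.ker B.mulVecLin →ₗ[ℝ] (Fin 2 → ℝ) :=
    (LinearMap.funLeft ℝ ℝ (![0, 3] : Fin 2 → Fin 8)).domRestrict _
  have hf : Function.Injective f := by
    rw [← LinearMap.ker_eq_bot, LinearMap.ker_eq_bot']
    intro m hm
    have e0 := congrFun hm 0
    have e1 := congrFun hm 1
    have hm2 : B *ᵥ (m : Fin 8 → ℝ) = 0 := by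
      have := m.2
      rwa [LinearMap.mem_ker, Matrix.mulVecLin_apply] at this
    apply Subtype.ext
    exact forcing h hm2 (by simpa [f, LinearMap.funLeft] using e0)
      (by simpa [f, LinearMap.funLeft] using e1)
  simpa using LinearMap.finrank_le_finrank_of_injective hf

/-- If every kernel vector is annihilated by the four ports, the nullity is at most one. -/
lemma finrank_ker_le_one (h : GPat B) (t : Fin 4 → ℝ) (ht : ∀ r, t r ≠ 0)
    (hk : ∀ y : Fin 8 → ℝ, B *ᵥ y = 0 → ∀ r, y (hi r) = t r * y (lo r)) :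
    Module.finrank ℝ (LinearMap.ker B.mulVecLin) ≤ 1 := by
  by_contra hcon
  have h2 : Module.finrank ℝ (LinearMap.ker B.mulVecLin) = 2 :=
    le_antisymm (finrank_ker_le_two h) (by omega)
  let f : LinearMap.ker B.mulVecLin →ₗ[ℝ] (Fin 2 → ℝ) :=
    (LinearMap.funLeft ℝ ℝ (![0, 1] : Fin 2 → Fin 8)).domRestrict _
  have hf : Function.Injective f := by
    rw [← LinearMap.ker_eq_bot, LinearMap.ker_eq_bot']
    intro m hm
    have e0 : (m : Fin 8 → ℝ) 0 = 0 := by simpa [f, LinearMap.funLeft] using congrFun hm 0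
    have e1 : (m : Fin 8 → ℝ) 1 = 0 := by simpa [f, LinearMap.funLeft] using congrFun hm 1
    have hm2 : B *ᵥ (m : Fin 8 → ℝ) = 0 := by
      have := m.2
      rwa [LinearMap.mem_ker, Matrix.mulVecLin_apply] at this
    have e3 : (m : Fin 8 → ℝ) 3 = 0 := by
      have := hk _ hm2 1
      simpa [hi, lo, e1] using this
    apply Subtype.ext
    exact forcing h hm2 e0 e3
  have hs : Function.Surjective f := by
    have : Module.finrank ℝ (LinearMap.ker B.mulVecLin) = Module.finrank ℝ (Fin 2 → ℝ) := by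
      simpa using h2
    exact (LinearMap.injective_iff_surjective_of_finrank_eq_finrank this).1 hf
  obtain ⟨p, hp⟩ := hs ![1, 0]
  obtain ⟨q, hq⟩ := hs ![0, 1]
  have hpk : B *ᵥ (p : Fin 8 → ℝ) = 0 := by
    have := p.2
    rwa [LinearMap.mem_ker, Matrix.mulVecLin_apply] at this
  have hqk : B *ᵥ (q : Fin 8 → ℝ) = 0 := by
    have := q.2
    rwa [LinearMap.mem_ker, Matrix.mulVecLin_apply] at this
  have p0 : (p : Fin 8 → ℝ) 0 = 1 := by simpa [f, LinearMap.funLeft] using congrFun hp 0
  have p1 : (p : Fin 8 → ℝ) 1 = 0 := by simpa [f, LinearMap.funLeft] using congrFun hp 1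
  have q0 : (q : Fin 8 → ℝ) 0 = 0 := by simpa [f, LinearMap.funLeft] using congrFun hq 0
  have q1 : (q : Fin 8 → ℝ) 1 = 1 := by simpa [f, LinearMap.funLeft] using congrFun hq 1
  have p2 : (p : Fin 8 → ℝ) 2 = t 0 := by
    have := hk _ hpk 0
    simpa [hi, lo, p0] using this
  have p3 : (p : Fin 8 → ℝ) 3 = 0 := by
    have := hk _ hpk 1
    simpa [hi, lo, p1] using this
  have p5 : (p : Fin 8 → ℝ) 5 = 0 := by
    have := hk _ hpk 3
    simpa [hi, lo, p3] using this
  have q2 : (q : Fin 8 → ℝ) 2 = 0 := by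
    have := hk _ hqk 0
    simpa [hi, lo, q0] using this
  have q3 : (q : Fin 8 → ℝ) 3 = t 1 := by
    have := hk _ hqk 1
    simpa [hi, lo, q1] using this
  have q4 : (q : Fin 8 → ℝ) 4 = 0 := by
    have := hk _ hqk 2
    simpa [hi, lo, q2] using this
  have q5 : (q : Fin 8 → ℝ) 5 = t 3 * t 1 := by
    have := hk _ hqk 3
    simpa [hi, lo, q3] using this
  have a := row1 h hpk
  have b := row3 h hpk
  have c := row0 h hqk
  have d := row2 h hqk
  rw [p0, p1, p2, p5] at a
  rw [p0, p2, p3] at b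
  rw [q0, q1, q3] at c
  rw [q1, q2, q3, q4, q5] at d
  have s10 := h.symm 1 0
  have s21 := h.symm 2 1
  have s30 := h.symm 3 0
  have s32 := h.symm 3 2
  rw [s10] at a
  rw [s30, s32] at b
  rw [s21] at d
  have n25 := h.ne (i := 2) (j := 5) (by decide) (by decide)
  have t0 := ht 0
  have t1 := ht 1
  have t3 := ht 3
  -- a : B01 + B12 t0 = 0 ; b : B03 + B23 t0 = 0 ; c : B01 + B03 t1 = 0 ;
  -- d : B12 + B23 t1 + B25 t3 t1 = 0
  have key : t 0 * (B 2 5 * (t 3 * t 1)) = 0 := by
    linear_combination (t 0) * d - a - t 1 * b + c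
  rcases mul_eq_zero.1 key with h1 | h1
  · exact t0 h1
  · rcases mul_eq_zero.1 h1 with h2 | h2
    · exact n25 h2
    · rcases mul_eq_zero.1 h2 with h3 | h3
      · exact t3 h3
      · exact t1 h3

end Pool.Agent.helper14.Fort
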