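import Pool.Agent.helper14.Fort.Basic
import Pool.Agent.helper14.Fort.Gadget

namespace Pool.Agent.helper14.Fort

open Matrix

/-! ### The big graph -/

/-- index set of the gadgets -/
abbrev GI (h c : ℕ) : Type := (Fin 4 ↪ Fin h) × Fin c

/-- vertex set: `h` hubs and the vertices of the gadgets -/
abbrev BV (h c : ℕ) : Type := Fin h ⊕ (GI h c × Fin 8)

/-- adjacency between a hub and a gadget vertex -/
def port {h c : ℕ} (a : Fin h) (p : GI h c × Fin 8) : Prop :=
  ∃ r : Fin 4, p.1.1 r = a ∧ (p.2 = lo r ∨ p.2 = hi r)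

/-- adjacency of the big graph -/
def badj {h c : ℕ} : BV h c → BV h c → Prop
  | Sum.inl _, Sum.inl _ => False
  | Sum.inl a, Sum.inr p => port a p
  | Sum.inr p, Sum.inl a => port a p
  | Sum.inr p, Sum.inr q => p.1 = q.1 ∧ gadj p.2 q.2

/-- the big graph -/
def bigGraph (h c : ℕ) : SimpleGraph (BV h c) where
  Adj := badj
  symm := ⟨by
    rintro (a | p) (b | q) hab
    · exact hab
    · exact hab
    · exact hab
    · exact ⟨hab.1.symm, gadj_symm hab.2⟩⟩
  loopless := ⟨by
    rintro (a | p) hab
    · exact hab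
    · exact gadj_irrefl _ hab.2⟩

/-! ### General linear algebra -/

/-- A subspace `U` of `ℝ^h` has a set of at most `dim U` coordinates which determine its
elements. -/
lemma exists_pivots {h : ℕ} (d : ℕ) (U : Submodule ℝ (Fin h → ℝ))
    (hU : Module.finrank ℝ U ≤ d) :
    ∃ S : Finset (Fin h), S.card ≤ d ∧ ∀ u ∈ U, (∀ a ∈ S, u a = 0) → u = 0 := by
  induction d generalizing U with
  | zero =>
    refine ⟨∅, by simp, fun u hu _ => ?_⟩
    have : U = ⊥ := Submodule.finrank_eq_zero.1 (by omega)
    rw [this] at hu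
    exact (Submodule.mem_bot ℝ).1 hu
  | succ d ih =>
    by_cases hbot : U = ⊥
    · refine ⟨∅, by simp, fun u hu _ => ?_⟩
      rw [hbot] at hu
      exact (Submodule.mem_bot ℝ).1 hu
    · obtain ⟨u, hu, hune⟩ := (Submodule.ne_bot_iff U).1 hbot
      obtain ⟨a, ha⟩ : ∃ a, u a ≠ 0 := by
        by_contra hcon
        push Not at hcon
        exact hune (funext hcon)
      let U' : Submodule ℝ (Fin h → ℝ) := U ⊓ LinearMap.ker (LinearMap.proj (R := ℝ) a)
      have hlt : U' < U := by
        refine lt_of_le_of_ne inf_le_left ?_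
        intro he
        have hmem : u ∈ U' := by rw [he]; exact hu
        exact ha (by simpa using hmem.2)
      have hfin := Submodule.finrank_lt_finrank_of_lt hlt
      obtain ⟨S, hS, hS'⟩ := ih U' (by omega)
      refine ⟨insert a S, (Finset.card_insert_le _ _).trans (by omega), ?_⟩
      intro w hw hz
      apply hS' w
      · refine ⟨hw, ?_⟩
        simpa using hz a (Finset.mem_insert_self _ _)
      · intro b hb
        exact hz b (Finset.mem_insert_of_mem hb)

/-- With at least `k` further coordinates there is an injection of `Fin k` avoiding them. -/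
lemma exists_embedding {h : ℕ} (k : ℕ) (U : Submodule ℝ (Fin h → ℝ))
    (hU : Module.finrank ℝ U + k ≤ h) :
    ∃ s : Fin k ↪ Fin h, ∀ u ∈ U, (∀ a, (∀ r, s r ≠ a) → u a = 0) → u = 0 := by
  obtain ⟨S, hS, hS'⟩ := exists_pivots (Module.finrank ℝ U) U le_rfl
  have hcard : Fintype.card (Fin k) ≤ Fintype.card {a : Fin h // a ∉ S} := by
    rw [Fintype.card_fin, Fintype.card_subtype_compl]
    simp only [Fintype.card_fin, Fintype.card_coe]
    omega
  obtain ⟨e⟩ := Function.Embedding.nonempty_of_card_le hcard
  refine ⟨e.trans (Function.Embedding.subtype _), fun u hu hz => ?_⟩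
  apply hS' u hu
  intro a ha
  apply hz
  intro r hr
  have := (e r).2
  simp only [Function.Embedding.trans_apply, Function.Embedding.subtype_apply] at hr
  rw [hr] at this
  exact this ha

section Estimate

variable {m n : Type} [Fintype m] [Fintype n]

/-- The kernel of the block `inr, inr`. -/
def kerN (A : Matrix (m ⊕ n) (m ⊕ n) ℝ) : Submodule ℝ (n → ℝ) :=
  LinearMap.ker (A.submatrix Sum.inr Sum.inr).mulVecLin

/-- The image of that kernel under the block `inl, inr`. -/
def imU (A : Matrix (m ⊕ n) (m ⊕ n) ℝ) : Submodule ℝ (m → ℝ) :=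
  (kerN A).map (A.submatrix Sum.inl Sum.inr).mulVecLin

/-- Upper bound of the nullity of a symmetric block matrix. -/
lemma nullity_le (A : Matrix (m ⊕ n) (m ⊕ n) ℝ) (hA : A.IsSymm) :
    Module.finrank ℝ (LinearMap.ker A.mulVecLin) + 2 * Module.finrank ℝ (imU A)
      ≤ Module.finrank ℝ (kerN A) + Fintype.card m := by
  let K : Submodule ℝ (m ⊕ n → ℝ) := LinearMap.ker A.mulVecLin
  let π : K →ₗ[ℝ] (m → ℝ) := (LinearMap.funLeft ℝ ℝ (Sum.inl : m → m ⊕ n)).domRestrict K
  let L : kerN A →ₗ[ℝ] (m → ℝ) :=
    (A.submatrix Sum.inl Sum.inr).mulVecLin.domRestrict (kerN A)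
  have hL := LinearMap.finrank_range_add_finrank_ker L
  have hπ := LinearMap.finrank_range_add_finrank_ker π
  have hLr : LinearMap.range L = imU A := by
    rw [LinearMap.range_domRestrict]; rfl
  rw [hLr] at hL
  -- the two row equations
  have rowr : ∀ y : m ⊕ n → ℝ, A *ᵥ y = 0 → ∀ q : n,
      ∑ p : m, A (Sum.inr q) (Sum.inl p) * y (Sum.inl p) +
        ∑ p : n, A (Sum.inr q) (Sum.inr p) * y (Sum.inr p) = 0 := by
    intro y hy q
    have := congrFun hy (Sum.inr q)
    simpa [Matrix.mulVec, dotProduct, Fintype.sum_sum_type] using this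
  have rowl : ∀ y : m ⊕ n → ℝ, A *ᵥ y = 0 → ∀ q : m,
      ∑ p : m, A (Sum.inl q) (Sum.inl p) * y (Sum.inl p) +
        ∑ p : n, A (Sum.inl q) (Sum.inr p) * y (Sum.inr p) = 0 := by
    intro y hy q
    have := congrFun hy (Sum.inl q)
    simpa [Matrix.mulVec, dotProduct, Fintype.sum_sum_type] using this
  have memK : ∀ y : K, A *ᵥ (y : m ⊕ n → ℝ) = 0 := by
    intro y
    have h1 : A.mulVecLin (y : m ⊕ n → ℝ) = 0 := LinearMap.mem_ker.1 y.2
    rwa [Matrix.mulVecLin_apply] at h1
  -- kernel of π injects into kernel of L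
  have hker : Module.finrank ℝ (LinearMap.ker π) ≤ Module.finrank ℝ (LinearMap.ker L) := by
    have hz : ∀ y : LinearMap.ker π, ∀ p : m, ((y : K) : m ⊕ n → ℝ) (Sum.inl p) = 0 := by
      intro y p
      exact congrFun (LinearMap.mem_ker.1 y.2) p
    have hN : ∀ y : LinearMap.ker π,
        (LinearMap.funLeft ℝ ℝ (Sum.inr : n → m ⊕ n)) ((y : K) : m ⊕ n → ℝ) ∈ kerN A := by
      intro y
      unfold kerN
      rw [LinearMap.mem_ker, Matrix.mulVecLin_apply]
      funext q
      have := rowr _ (memK (y : K)) q
      simp only [hz y, mul_zero, Finset.sum_const_zero, zero_add] at this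
      simpa [Matrix.mulVec, dotProduct, LinearMap.funLeft] using this
    let g0 : LinearMap.ker π →ₗ[ℝ] kerN A :=
      LinearMap.codRestrict (kerN A)
        ((LinearMap.funLeft ℝ ℝ (Sum.inr : n → m ⊕ n)).comp
          (K.subtype.comp (LinearMap.ker π).subtype)) (fun y => hN y)
    have hg0 : ∀ y, g0 y ∈ LinearMap.ker L := by
      intro y
      rw [LinearMap.mem_ker]
      funext q
      have := rowl _ (memK (y : K)) q
      simp only [hz y, mul_zero, Finset.sum_const_zero, zero_add] at this
      simpa [g0, L, Matrix.mulVec, dotProduct, LinearMap.funLeft] using this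
    let g : LinearMap.ker π →ₗ[ℝ] LinearMap.ker L := LinearMap.codRestrict _ g0 hg0
    have hg : Function.Injective g := by
      rw [injective_iff_map_eq_zero]
      intro y hy
      have h1 : ∀ q : n, ((y : K) : m ⊕ n → ℝ) (Sum.inr q) = 0 := by
        intro q
        have h2 : ((g y : LinearMap.ker L) : kerN A) = 0 := by rw [hy]; rfl
        have h3 : (g0 y : n → ℝ) = 0 := by
          have : g0 y = 0 := h2
          rw [this]; rfl
        simpa [g0, LinearMap.funLeft] using congrFun h3 q
      apply Subtype.ext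
      apply Subtype.ext
      funext v
      rcases v with p | q
      · simpa using hz y p
      · simpa using h1 q
    exact LinearMap.finrank_le_finrank_of_injective hg
  -- range of π is orthogonal to imU
  have hdisj : Disjoint (LinearMap.range π) (imU A) := by
    rw [Submodule.disjoint_def]
    rintro w ⟨y, rfl⟩ hw
    obtain ⟨k, hk, hkw⟩ := hw
    have hkN : ∀ q : n, ∑ p : n, A (Sum.inr q) (Sum.inr p) * k p = 0 := by
      intro q
      have : (A.submatrix Sum.inr Sum.inr) *ᵥ k = 0 := by
        have := hk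
        unfold kerN at this
        simpa [LinearMap.mem_ker, Matrix.mulVecLin_apply] using this
      have := congrFun this q
      simpa [Matrix.mulVec, dotProduct] using this
    have hw2 : ∀ p : m, ∑ q : n, A (Sum.inl p) (Sum.inr q) * k q
        = ((y : K) : m ⊕ n → ℝ) (Sum.inl p) := by
      intro p
      have := congrFun hkw p
      simpa [π, LinearMap.funLeft, Matrix.mulVec, dotProduct] using this
    set Y : m ⊕ n → ℝ := ((y : K) : m ⊕ n → ℝ) with hY
    have hsq : ∑ p : m, Y (Sum.inl p) * Y (Sum.inl p) = 0 := by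
      have e1 : ∑ q : n, k q * (∑ p : m, A (Sum.inr q) (Sum.inl p) * Y (Sum.inl p) +
          ∑ p : n, A (Sum.inr q) (Sum.inr p) * Y (Sum.inr p)) = 0 := by
        apply Finset.sum_eq_zero
        intro q _
        rw [rowr Y (memK y) q, mul_zero]
      simp only [mul_add, Finset.sum_add_distrib] at e1
      have e2 : ∑ q : n, k q * ∑ p : n, A (Sum.inr q) (Sum.inr p) * Y (Sum.inr p) = 0 := by
        simp only [Finset.mul_sum]
        rw [Finset.sum_comm]
        apply Finset.sum_eq_zero
        intro p _
        have : ∑ q : n, k q * (A (Sum.inr q) (Sum.inr p) * Y (Sum.inr p))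
            = (∑ q : n, A (Sum.inr p) (Sum.inr q) * k q) * Y (Sum.inr p) := by
          rw [Finset.sum_mul]
          apply Finset.sum_congr rfl
          intro q _
          rw [hA.apply (Sum.inr p) (Sum.inr q)]
          ring
        rw [this, hkN p, zero_mul]
      rw [e2, add_zero] at e1
      rw [← e1]
      simp only [Finset.mul_sum]
      rw [Finset.sum_comm]
      apply Finset.sum_congr rfl
      intro p _
      nth_rewrite 1 [← hw2 p]
      rw [Finset.sum_mul]
      apply Finset.sum_congr rfl
      intro q _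
      rw [hA.apply (Sum.inl p) (Sum.inr q)]
      ring
    have hz : ∀ p : m, Y (Sum.inl p) = 0 := by
      intro p
      have := (Finset.sum_eq_zero_iff_of_nonneg (fun p _ => mul_self_nonneg _)).1 hsq p
        (Finset.mem_univ p)
      exact mul_self_eq_zero.1 this
    funext p
    simpa [π, LinearMap.funLeft, hY] using hz p
  have hsum := Submodule.finrank_add_finrank_le_of_disjoint hdisj
  rw [Module.finrank_fintype_fun_eq_card] at hsum
  change Module.finrank ℝ K + 2 * Module.finrank ℝ (imU A)
      ≤ Module.finrank ℝ (kerN A) + Fintype.card m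
  omega

end Estimate

/-! ### The gadget blocks of a matrix with the pattern of the big graph -/

section Blocks

variable {h c : ℕ} (A : Matrix (BV h c) (BV h c) ℝ)

/-- the diagonal block of the gadget `i` -/
def blk (i : GI h c) : Matrix (Fin 8) (Fin 8) ℝ :=
  A.submatrix (fun x => Sum.inr (i, x)) (fun x => Sum.inr (i, x))

variable {A}

lemma blk_pat (hA : A ∈ symMats (bigGraph h c)) (i : GI h c) : GPat (blk A i) where
  symm := fun x y => hA.1.apply _ _
  pat := by
    intro x y hxy
    have hne : (Sum.inr (i, x) : BV h c) ≠ Sum.inr (i, y) := by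
      intro he
      exact hxy (Prod.ext_iff.1 (Sum.inr_injective he)).2
    refine (hA.2 _ _ hne).trans ?_
    constructor
    · intro hab; exact hab.2
    · intro hab; exact ⟨rfl, hab⟩

/-- entries between different gadgets vanish -/
lemma off_blk (hA : A ∈ symMats (bigGraph h c)) {i j : GI h c} (hij : i ≠ j) (x y : Fin 8) :
    A (Sum.inr (i, x)) (Sum.inr (j, y)) = 0 := by
  by_contra hne
  have hne' : (Sum.inr (i, x) : BV h c) ≠ Sum.inr (j, y) := by
    intro he
    exact hij (Prod.ext_iff.1 (Sum.inr_injective he)).1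
  exact hij ((hA.2 _ _ hne').1 hne).1

lemma mulVec_inr (hA : A ∈ symMats (bigGraph h c)) (y : GI h c × Fin 8 → ℝ) (i : GI h c)
    (x : Fin 8) :
    ((A.submatrix Sum.inr Sum.inr) *ᵥ y) (i, x) = ((blk A i) *ᵥ fun z => y (i, z)) x := by
  simp only [Matrix.mulVec, dotProduct, Matrix.submatrix_apply, blk]
  rw [Fintype.sum_prod_type, Finset.sum_eq_single i]
  · intro j _ hj
    apply Finset.sum_eq_zero
    intro z _
    rw [off_blk hA (Ne.symm hj), zero_mul]
  · intro hi
    exact absurd (Finset.mem_univ i) hi

/-- The kernel of the gadget part embeds into the product of the kernels of the blocks. -/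
lemma finrank_kerN_le (hA : A ∈ symMats (bigGraph h c)) :
    Module.finrank ℝ (kerN A)
      ≤ ∑ i : GI h c, Module.finrank ℝ (LinearMap.ker (blk A i).mulVecLin) := by
  rw [← Module.finrank_pi_fintype ℝ]
  let f : (i : GI h c) → (kerN A →ₗ[ℝ] LinearMap.ker (blk A i).mulVecLin) := fun i =>
    LinearMap.codRestrict _
      ((LinearMap.funLeft ℝ ℝ (fun x : Fin 8 => (i, x))).comp (kerN A).subtype) (by
        intro y
        have hy : (A.submatrix Sum.inr Sum.inr) *ᵥ (y : GI h c × Fin 8 → ℝ) = 0 := by
          have := LinearMap.mem_ker.1 y.2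
          rwa [Matrix.mulVecLin_apply] at this
        rw [LinearMap.mem_ker, Matrix.mulVecLin_apply]
        funext x
        have := congrFun hy (i, x)
        rw [mulVec_inr hA] at this
        exact this)
  have hf : Function.Injective (LinearMap.pi f) := by
    rw [injective_iff_map_eq_zero]
    intro y hy
    apply Subtype.ext
    funext p
    obtain ⟨i, x⟩ := p
    have h1 : f i y = 0 := congrFun hy i
    have h2 : ((f i y : LinearMap.ker (blk A i).mulVecLin) : Fin 8 → ℝ) = 0 := by rw [h1]; rfl
    simpa [f, LinearMap.funLeft] using congrFun h2 x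
  exact LinearMap.finrank_le_finrank_of_injective hf

/-- hub entries -/
lemma hub_entry (hA : A ∈ symMats (bigGraph h c)) (i : GI h c) (a : Fin h) (x : Fin 8) :
    A (Sum.inl a) (Sum.inr (i, x)) ≠ 0 ↔ port a (i, x) := by
  have hne' : (Sum.inl a : BV h c) ≠ Sum.inr (i, x) := by simp
  exact hA.2 _ _ hne'

lemma lo_ne_hi (r : Fin 4) : lo r ≠ hi r := by revert r; decide

/-- If no nonzero element of `imU A` is supported on the hubs of the gadget `i`, then the block
of this gadget has nullity at most one. -/
lemma finrank_blk_le_one (hA : A ∈ symMats (bigGraph h c)) (i : GI h c)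
    (hU : ∀ u ∈ imU A, (∀ a, (∀ r, i.1 r ≠ a) → u a = 0) → u = 0) :
    Module.finrank ℝ (LinearMap.ker (blk A i).mulVecLin) ≤ 1 := by
  have hlo : ∀ r, A (Sum.inl (i.1 r)) (Sum.inr (i, lo r)) ≠ 0 := fun r =>
    (hub_entry hA i _ _).2 ⟨r, rfl, Or.inl rfl⟩
  have hhi : ∀ r, A (Sum.inl (i.1 r)) (Sum.inr (i, hi r)) ≠ 0 := fun r =>
    (hub_entry hA i _ _).2 ⟨r, rfl, Or.inr rfl⟩
  apply finrank_ker_le_one (blk_pat hA i)
    (fun r => - A (Sum.inl (i.1 r)) (Sum.inr (i, lo r)) /
      A (Sum.inl (i.1 r)) (Sum.inr (i, hi r)))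
  · intro r
    exact div_ne_zero (neg_ne_zero.2 (hlo r)) (hhi r)
  · intro y hy r
    -- the extension of `y` by zero
    let Y : GI h c × Fin 8 → ℝ := fun p => if p.1 = i then y p.2 else 0
    have hY : Y ∈ kerN A := by
      unfold kerN
      rw [LinearMap.mem_ker, Matrix.mulVecLin_apply]
      funext p
      obtain ⟨j, x⟩ := p
      rw [mulVec_inr hA]
      by_cases hj : j = i
      · subst hj
        have : (fun z => Y (j, z)) = y := by funext z; simp [Y]
        rw [this, hy]; rfl
      · have : (fun z => Y (j, z)) = 0 := by funext z; simp [Y, hj]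
        rw [this, Matrix.mulVec_zero]; rfl
    have hval : ∀ a, ((A.submatrix Sum.inl Sum.inr).mulVecLin Y) a
        = ∑ x : Fin 8, A (Sum.inl a) (Sum.inr (i, x)) * y x := by
      intro a
      simp only [Matrix.mulVecLin_apply, Matrix.mulVec, dotProduct, Matrix.submatrix_apply]
      rw [Fintype.sum_prod_type, Finset.sum_eq_single i]
      · simp [Y]
      · intro j _ hj
        apply Finset.sum_eq_zero
        intro z _
        simp [Y, hj]
      · intro hi
        exact absurd (Finset.mem_univ i) hi
    have hzero : (A.submatrix Sum.inl Sum.inr).mulVecLin Y = 0 := by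
      apply hU _ (Submodule.mem_map_of_mem hY)
      intro a ha
      rw [hval]
      apply Finset.sum_eq_zero
      intro x _
      have : A (Sum.inl a) (Sum.inr (i, x)) = 0 := by
        by_contra hne
        obtain ⟨r', hr', -⟩ := (hub_entry hA i a x).1 hne
        exact ha r' hr'
      rw [this, zero_mul]
    have e := congrFun hzero (i.1 r)
    rw [hval] at e
    have hsum : ∑ x : Fin 8, A (Sum.inl (i.1 r)) (Sum.inr (i, x)) * y x
        = A (Sum.inl (i.1 r)) (Sum.inr (i, lo r)) * y (lo r)
          + A (Sum.inl (i.1 r)) (Sum.inr (i, hi r)) * y (hi r) := by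
      have hp := Finset.sum_pair (f := fun x => A (Sum.inl (i.1 r)) (Sum.inr (i, x)) * y x)
        (lo_ne_hi r)
      refine Eq.trans ?_ hp
      symm
      apply Finset.sum_subset (Finset.subset_univ _)
      intro x _ hx
      have : A (Sum.inl (i.1 r)) (Sum.inr (i, x)) = 0 := by
        by_contra hne
        obtain ⟨r', hr', hx'⟩ := (hub_entry hA i _ x).1 hne
        have : r' = r := i.1.injective hr'
        subst this
        apply hx
        simp only [Finset.mem_insert, Finset.mem_singleton]
        exact hx'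
      rw [this, zero_mul]
    rw [hsum] at e
    simp only [Pi.zero_apply] at e
    have hh := hhi r
    field_simp
    linarith

end Blocks

end Pool.Agent.helper14.Fort
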